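import Pool.Agent.X298.FP.CDefs
import Pool.Agent.X298.PA.NFMain
import Pool.Agent.X298.ST.GLaw

/-!
# Elliptic curves over number fields: the values on the critical line from the numbers of points
-/

set_option autoImplicit false

open Complex Filter Topology Set
open IsDedekindDomain NumberField

namespace Pool.Agent.X298.FP

open Pool.Agent.X298.PA Pool.Agent.X298.PA.NF Pool.Agent.X298.ST
open Pool.Agent.W189.LC (fr cf)
open Pool.Agent.W189.NF (aV eV nfEP IsCont)
open Pool.Agent.W189.ML (ser om)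
open Pool.Agent.W187.UR (Lam)
open Pool.Agent.X287.CR (sr)
open Pool.Agent.H921R2.TatePole (nm)

variable {K : Type} [Field K] [NumberField K]

/-- the frequencies -/
noncomputable def fE (K : Type) [Field K] [NumberField K] : HeightOneSpectrum (𝓞 K) × ℕ → ℝ :=
  fr fun v : HeightOneSpectrum (𝓞 K) => (nm v : ℝ)

/-- the coefficients -/
noncomputable def cE (E : WeierstrassCurve K) : HeightOneSpectrum (𝓞 K) × ℕ → ℝ :=
  cf (fun v => (nm v : ℝ)) (fun v => ((aV E v : ℤ) : ℝ)) (fun v => ((eV E v : ℤ) : ℝ))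

theorem gsys (E : WeierstrassCurve K) : GSys (fE K) (fun x => ((cE E x : ℝ) : ℂ)) 1 where
  cnt := inferInstance
  nonneg := (nfEP E).fr_nonneg
  sum := fun σ hσ => by
    refine ((nfEP E).summable hσ).congr fun x => ?_
    rw [Complex.norm_real, Real.norm_eq_abs]
    rfl

theorem sr_eq (E : WeierstrassCurve K) (w : ℂ) : sr (fE K) (fun x => ((cE E x : ℝ) : ℂ)) w = ser (fE K) (cE E) w := rfl

theorem cTerm_eq (E : WeierstrassCurve K) (τ γ T : ℝ) (x : HeightOneSpectrum (𝓞 K) × ℕ) :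
    cTerm E τ γ T x = ((cE E x : ℝ) : ℂ) * exp (-((τ * I) * (fE K x : ℝ))) * exp ((γ * (fE K x / T) : ℝ) * I) *
      (om (fE K x / T) : ℂ) := by
  have h1 : (powerSum (localPoly E x.1) (x.2 + 1) : ℂ) =
      ((Pool.Agent.W189.LC.psum ((aV E x.1 : ℤ) : ℝ) ((eV E x.1 : ℤ) : ℝ) (x.2 + 1) : ℝ) : ℂ) := by
    rw [powerSum_eq, ← Pool.Agent.W189.NF.psum_cast']
    push_cast
    rfl
  have h2 : exp (-((τ * I) * (fE K x : ℝ))) * exp ((γ * (fE K x / T) : ℝ) * I) =
      exp (((γ / T - τ) * ((x.2 + 1) * Real.log (q x.1)) : ℝ) * I) := by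
    rw [← Complex.exp_add]
    congr 1
    have h3 : fE K x = (x.2 + 1) * Real.log (q x.1) := rfl
    rw [h3]
    push_cast
    ring
  unfold cTerm
  rw [h1, mul_assoc ((cE E x : ℝ) : ℂ), h2]
  have h4 : cE E x = Pool.Agent.W189.LC.psum ((aV E x.1 : ℤ) : ℝ) ((eV E x.1 : ℤ) : ℝ) (x.2 + 1) /
      ((x.2 + 1) * q x.1 ^ (x.2 + 1)) := rfl
  have h5 : om (fE K x / T) = (Real.Gamma (1 + (x.2 + 1) * Real.log (q x.1) / T))⁻¹ := rfl
  rw [h4, h5]
  push_cast
  field_simp

theorem cTerm_summable (E : WeierstrassCurve K) (τ γ : ℝ) {T : ℝ} (hT : 0 < T) :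
    Summable fun x => ‖cTerm E τ γ T x‖ :=
  ((gsys E).summable (τ * I) γ hT).congr fun x => by rw [cTerm_eq]

theorem cSum_eq (E : WeierstrassCurve K) (τ γ T : ℝ) :
    cSum E τ γ T = -GS (fE K) (fun x => ((cE E x : ℝ) : ℂ)) (τ * I) γ T := by
  unfold cSum GS
  rw [neg_neg]
  exact tsum_congr fun x => cTerm_eq E τ γ T x

theorem factor_eq {N : ℝ} (hN : 0 < N) {s : ℂ} (hs : 0 < s.re) (Λ : ℂ → ℂ) :
    factor K N s * FF N (Module.finrank ℚ K) Λ s = Λ s := by
  set n := Module.finrank ℚ K with hn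
  have hN' : (N : ℂ) ≠ 0 := by exact_mod_cast hN.ne'
  unfold factor FF
  rw [← hn]
  have h1 : (N : ℂ) ^ (s / 2) * (N : ℂ) ^ (-s / 2) = 1 := by
    rw [← Complex.cpow_add _ _ hN']
    have : s / 2 + -s / 2 = 0 := by ring
    rw [this, Complex.cpow_zero]
  have h2 : ((2 * Real.pi : ℂ) ^ (-s) * Gamma s) ^ n * ((2 * Real.pi : ℂ) ^ s * (Gamma s)⁻¹) ^ n = 1 := by
    rw [← mul_pow]
    have h3 : (2 * Real.pi : ℂ) ^ (-s) * (2 * Real.pi : ℂ) ^ s = 1 := by
      rw [← Complex.cpow_add _ _ two_pi_ne, neg_add_cancel, Complex.cpow_zero]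
    have h4 : Gamma s ≠ 0 := Complex.Gamma_ne_zero_of_re_pos hs
    have h5 : (2 * Real.pi : ℂ) ^ (-s) * Gamma s * ((2 * Real.pi : ℂ) ^ s * (Gamma s)⁻¹) = 1 := by
      calc _ = ((2 * Real.pi : ℂ) ^ (-s) * (2 * Real.pi : ℂ) ^ s) * (Gamma s * (Gamma s)⁻¹) := by ring
        _ = 1 := by rw [h3, mul_inv_cancel₀ h4, one_mul]
    rw [h5, one_pow]
  calc _ = ((N : ℂ) ^ (s / 2) * (N : ℂ) ^ (-s / 2)) * (((2 * Real.pi : ℂ) ^ (-s) * Gamma s) ^ n *
      ((2 * Real.pi : ℂ) ^ s * (Gamma s)⁻¹) ^ n) * Λ s := by ring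
    _ = Λ s := by rw [h1, h2, one_mul, one_mul]

theorem toHW {E : WeierstrassCurve K} {N : ℝ} {w : ℤ} {Λ : ℂ → ℂ} (h : Completed E N w Λ) : HasseWeil E w Λ :=
  ⟨h.entire, ⟨N, h.pos, h.eq⟩, h.fe⟩

theorem sign_cases {E : WeierstrassCurve K} {N : ℝ} {w : ℤ} {Λ : ℂ → ℂ} (h : Completed E N w Λ) : w = 1 ∨ w = -1 := by
  have h1 := (PA.NF.main (toHW h)).2.1
  rw [← h1]
  exact neg_one_pow_eq_or ℤ _

/-- the exponential of the rotated sum -/
theorem exp_bound {S : ℝ → ℂ} {m : ℕ} {r c : ℂ}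
    (h : (fun T : ℝ => S T - (r - m * (Real.log T - c))) =O[atTop] (fun T : ℝ => 1 / T)) :
    (fun T : ℝ => exp (S T) - (if m = 0 then exp r else 0)) =O[atTop] (fun T : ℝ => 1 / T) := by
  have h0 : Tendsto (fun T : ℝ => 1 / T) atTop (𝓝 0) := tendsto_const_nhds.div_atTop tendsto_id
  have ht : Tendsto (fun T : ℝ => S T - (r - m * (Real.log T - c))) atTop (𝓝 0) := h.trans_tendsto h0
  have he : (fun T : ℝ => exp (S T - (r - m * (Real.log T - c))) - 1) =O[atTop] (fun T : ℝ => 1 / T) := by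
    have h1 := (Complex.hasDerivAt_exp 0).isBigO_sub
    simp only [sub_zero, Complex.exp_zero] at h1
    exact (h1.comp_tendsto ht).trans h
  by_cases hm : m = 0
  · subst hm
    simp only [if_true]
    have h2 := he.const_mul_left (exp r)
    refine h2.congr_left fun T => ?_
    rw [mul_sub, ← Complex.exp_add, mul_one]
    congr 2
    push_cast
    ring
  · simp only [hm, if_false, sub_zero]
    have h3 : (fun T : ℝ => exp (S T - (r - m * (Real.log T - c)))) =O[atTop] (fun _ : ℝ => (1 : ℝ)) := by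
      have h4 : Tendsto (fun T : ℝ => exp (S T - (r - m * (Real.log T - c)))) atTop (𝓝 (exp 0)) :=
        (Complex.continuous_exp.tendsto 0).comp ht
      exact h4.isBigO_one ℝ
    have h5 : (fun T : ℝ => exp (r + m * c) * exp (-(m * Real.log T : ℝ))) =O[atTop] (fun T : ℝ => 1 / T) := by
      refine Asymptotics.IsBigO.of_bound ‖exp (r + m * c)‖ ?_
      filter_upwards [eventually_ge_atTop (1 : ℝ)] with T hT
      have hT0 : 0 < T := by linarith
      rw [norm_mul]
      refine mul_le_mul_of_nonneg_left ?_ (norm_nonneg _)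
      rw [Complex.norm_exp, Complex.neg_re, Complex.ofReal_re, Real.norm_eq_abs, abs_of_pos (by positivity), one_div,
        ← Real.exp_log (inv_pos.2 hT0), Real.log_inv]
      apply Real.exp_le_exp.2
      have h6 : 0 ≤ Real.log T := Real.log_nonneg hT
      have h7 : (1 : ℝ) ≤ m := by exact_mod_cast Nat.one_le_iff_ne_zero.2 hm
      nlinarith
    have h6 := h5.mul h3
    simp only [mul_one] at h6
    refine h6.congr_left fun T => ?_
    rw [← Complex.exp_add, ← Complex.exp_add]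
    congr 1
    push_cast
    ring

theorem value {E : WeierstrassCurve K} {N : ℝ} {w : ℤ} {Λ : ℂ → ℂ} (h : Completed E N w Λ) (τ : ℝ) {γ : ℝ}
    (hγ : Real.pi / 2 < γ) :
    (fun T : ℝ => zFun E N τ γ T - Λ (1 + τ * I)) =O[atTop] (fun T : ℝ => 1 / T) := by
  set n := Module.finrank ℚ K with hn
  set F : ℂ → ℂ := FF N n Λ with hF
  have hFd : Differentiable ℂ F := h.entire.mul (diff_factor h.pos n)
  have hcont : IsCont E F :=
    ⟨fun x _ _ => (hFd.analyticAt _).meromorphicAt, fun s hs => FF_eq h.pos n hs (h.eq s hs)⟩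
  have hFL : ∀ s : ℂ, 1 < s.re → F (1 + s) = exp (sr (fE K) (fun x => ((cE E x : ℝ) : ℂ)) s) := by
    intro s hs
    have h1 := hcont.prod (1 + s) (by simp; linarith)
    have h2 := (nfEP E).hasProd (w := s) hs
    rw [sr_eq]
    exact h1.unique h2
  obtain ⟨m, r₀, h1, h2, h3⟩ := (gsys E).law (L := fun s => F (1 + s)) hFL (s₀ := τ * I)
    (fun x _ _ => ((hFd.comp (by fun_prop : Differentiable ℂ fun s : ℂ => 1 + s)).analyticAt _).meromorphicAt) hγ
  have han : AnalyticAt ℂ (fun s => F (1 + s)) (τ * I) :=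
    (hFd.comp (by fun_prop : Differentiable ℂ fun s : ℂ => 1 + s)).analyticAt _
  -- the order is a natural number
  have hm0 : 0 ≤ m := by
    have h4 := han.meromorphicOrderAt_nonneg
    rw [h1] at h4
    exact_mod_cast h4
  obtain ⟨k, hk⟩ := Int.eq_ofNat_of_zero_le hm0
  have hval : F (1 + τ * I) = if k = 0 then exp r₀ else 0 := by
    by_cases hk0 : k = 0
    · rw [if_pos hk0]
      have h5 : meromorphicOrderAt (fun s => F (1 + s)) (τ * I) = 0 := by
        rw [h1, hk, hk0]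
        rfl
      have h6 : (fun s => F (1 + s)) (τ * I) ≠ 0 := by
        intro h7
        have h8 : analyticOrderAt (fun s => F (1 + s)) (τ * I) ≠ 0 := by
          intro h9
          exact (han.analyticOrderAt_eq_zero.1 h9) h7
        rw [han.meromorphicOrderAt_eq] at h5
        cases hh : analyticOrderAt (fun s => F (1 + s)) (τ * I) with
        | top => rw [hh] at h5; exact absurd h5 (by simp)
        | coe j =>
          rw [hh] at h5 h8
          have h3 : ((j : ℤ) : WithTop ℤ) = 0 := h5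
          have h4 : j = 0 := by exact_mod_cast h3
          rw [h4] at h8
          exact h8 rfl
      have h8 := han.meromorphicTrailingCoeffAt_of_ne_zero h6
      rw [h2] at h8
      exact h8.symm
    · rw [if_neg hk0]
      by_contra h6
      have h7 := order_zero han h6
      rw [h1, hk] at h7
      apply hk0
      exact_mod_cast h7
  have h4 : (fun T : ℝ => cSum E τ γ T - (r₀ - k * (Real.log T - Lam γ))) =O[atTop] (fun T : ℝ => 1 / T) := by
    refine h3.neg_left.congr_left fun T => ?_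
    rw [cSum_eq, hk]
    push_cast
    ring
  have h5 := (exp_bound h4).const_mul_left (factor K N (1 + τ * I))
  refine h5.congr_left fun T => ?_
  rw [← hval, mul_sub, hF, hn, factor_eq h.pos (by simp)]
  rfl

theorem factor_conj {N : ℝ} (hN : 0 < N) (s : ℂ) :
    factor K N ((starRingEnd ℂ) s) = (starRingEnd ℂ) (factor K N s) := by
  unfold factor
  have h1 : ∀ (x : ℝ), 0 < x → ∀ z : ℂ, (x : ℂ) ^ ((starRingEnd ℂ) z) = (starRingEnd ℂ) ((x : ℂ) ^ z) := by
    intro x hx z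
    rw [Complex.cpow_conj, Complex.conj_ofReal]
    rw [Complex.arg_ofReal_of_nonneg hx.le]
    exact Real.pi_pos.ne
  have h2 : (starRingEnd ℂ) s / 2 = (starRingEnd ℂ) (s / 2) := by
    rw [map_div₀, map_ofNat]
  have h3 : -(starRingEnd ℂ) s = (starRingEnd ℂ) (-s) := by rw [map_neg]
  have h4 : (2 * Real.pi : ℂ) = ((2 * Real.pi : ℝ) : ℂ) := by push_cast; rfl
  rw [h2, h3, h4, h1 N hN, h1 _ (by positivity), Complex.Gamma_conj, map_mul, map_pow, map_mul]

theorem conj_symm {E : WeierstrassCurve K} {N : ℝ} {w : ℤ} {Λ : ℂ → ℂ} (h : Completed E N w Λ) (s : ℂ) :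
    (starRingEnd ℂ) (Λ ((starRingEnd ℂ) s)) = Λ s := by
  set n := Module.finrank ℚ K with hn
  set F : ℂ → ℂ := FF N n Λ with hF
  have hFd : Differentiable ℂ F := h.entire.mul (diff_factor h.pos n)
  have hcont : IsCont E F :=
    ⟨fun x _ _ => (hFd.analyticAt _).meromorphicAt, fun s hs => FF_eq h.pos n hs (h.eq s hs)⟩
  have hL : ∀ s : ℂ, 2 < s.re → E.LSeries s = exp (ser (fE K) (cE E) (s - 1)) := by
    intro s hs
    have h1 := hcont.prod s hs
    have h2 := (nfEP E).hasProd (w := s - 1) (by simp; linarith)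
    rw [add_sub_cancel] at h2
    rw [← hcont.2 s hs]
    exact h1.unique h2
  have hLc : ∀ s : ℂ, 2 < s.re → E.LSeries ((starRingEnd ℂ) s) = (starRingEnd ℂ) (E.LSeries s) := by
    intro s hs
    rw [hL s hs, hL _ (by rw [Complex.conj_re]; exact hs), ← Complex.exp_conj]
    congr 1
    unfold ser
    rw [Complex.conj_tsum]
    refine tsum_congr fun x => ?_
    rw [map_mul, Complex.conj_ofReal, ← Complex.exp_conj]
    congr 2
    rw [map_neg, map_mul, map_sub, map_one, Complex.conj_ofReal]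
  have hg : Differentiable ℂ fun z => (starRingEnd ℂ) (Λ ((starRingEnd ℂ) z)) := by
    intro z
    have h1 := (h.entire ((starRingEnd ℂ) z)).conj_conj
    rw [Complex.conj_conj] at h1
    exact h1
  have han1 : AnalyticOnNhd ℂ (fun z => (starRingEnd ℂ) (Λ ((starRingEnd ℂ) z))) univ := fun z _ => hg.analyticAt z
  have han2 : AnalyticOnNhd ℂ Λ univ := fun z _ => h.entire.analyticAt z
  have hopen : IsOpen {z : ℂ | 2 < z.re} := isOpen_lt continuous_const Complex.continuous_re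
  have hev : (fun z => (starRingEnd ℂ) (Λ ((starRingEnd ℂ) z))) =ᶠ[𝓝 (3 : ℂ)] Λ := by
    filter_upwards [hopen.mem_nhds (show (2 : ℝ) < (3 : ℂ).re by norm_num)] with z hz
    have hz' : 2 < z.re := hz
    rw [h.eq z hz', h.eq _ (by rw [Complex.conj_re]; exact hz'), factor_conj h.pos, hLc z hz', map_mul,
      Complex.conj_conj, Complex.conj_conj]
  exact congrFun (han1.eq_of_eventuallyEq han2 hev) s

/-- the values on the critical line are real or purely imaginary -/
theorem square {E : WeierstrassCurve K} {N : ℝ} {w : ℤ} {Λ : ℂ → ℂ} (h : Completed E N w Λ) (τ : ℝ) :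
    Λ (1 + τ * I) ^ 2 = w * (‖Λ (1 + τ * I)‖ ^ 2 : ℝ) := by
  have h1 := conj_symm h (1 + τ * I)
  have h2 : (starRingEnd ℂ) (1 + τ * I : ℂ) = 2 - (1 + τ * I) := by
    rw [map_add, map_one, map_mul, Complex.conj_ofReal, Complex.conj_I]
    ring
  rw [h2, h.fe, map_mul] at h1
  have h3 : (starRingEnd ℂ) ((w : ℤ) : ℂ) = w := by simp
  rw [h3] at h1
  have h4 : Λ (1 + τ * I) * (starRingEnd ℂ) (Λ (1 + τ * I)) = (‖Λ (1 + τ * I)‖ ^ 2 : ℝ) := by
    rw [Complex.mul_conj, Complex.normSq_eq_norm_sq]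
  rw [← h4, sq]
  nth_rewrite 2 [← h1]
  ring

theorem finite_zeros {Λ : ℂ → ℂ} (hΛ : Differentiable ℂ Λ) {z : ℂ} (hz : Λ z ≠ 0) (R : ℝ) :
    {τ : ℝ | |τ| ≤ R ∧ Λ (1 + τ * I) = 0}.Finite := by
  by_contra hinf
  have hinf' : {τ : ℝ | |τ| ≤ R ∧ Λ (1 + τ * I) = 0}.Infinite := hinf
  have hsub : {τ : ℝ | |τ| ≤ R ∧ Λ (1 + τ * I) = 0} ⊆ Icc (-R) R := fun τ hτ => abs_le.1 hτ.1
  obtain ⟨a, -, ha⟩ := hinf'.exists_accPt_of_subset_isCompact isCompact_Icc hsub
  have hfr : ∃ᶠ τ : ℝ in 𝓝[≠] a, Λ (1 + (τ : ℂ) * I) = 0 := by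
    refine (accPt_iff_frequently_nhdsNE.1 ha).mono fun τ hτ => hτ.2
  have hmap : Tendsto (fun τ : ℝ => (1 + τ * I : ℂ)) (𝓝[≠] a) (𝓝[≠] (1 + a * I)) := by
    refine tendsto_nhdsWithin_of_tendsto_nhds_of_eventually_within _ ?_ ?_
    · have hc : Continuous fun τ : ℝ => (1 + τ * I : ℂ) := by fun_prop
      exact (hc.tendsto a).mono_left nhdsWithin_le_nhds
    · filter_upwards [self_mem_nhdsWithin] with τ hτ h1
      apply hτ
      have h2 : (1 + τ * I : ℂ) = 1 + a * I := h1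
      have h3 := congrArg Complex.im h2
      simpa using h3
  have hfr2 : ∃ᶠ s in 𝓝[≠] (1 + a * I : ℂ), Λ s = 0 := hmap.frequently hfr
  have han : AnalyticOnNhd ℂ Λ univ := fun z _ => hΛ.analyticAt z
  have h0 := han.eqOn_zero_of_preconnected_of_frequently_eq_zero isPreconnected_univ (mem_univ (1 + a * I : ℂ)) hfr2
  exact hz (h0 (mem_univ z))

theorem exists_ne {E : WeierstrassCurve K} {N : ℝ} {w : ℤ} {Λ : ℂ → ℂ} (h : Completed E N w Λ) : Λ 3 ≠ 0 := by
  intro h0
  have h1 := (PA.NF.main (toHW h)).1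
  -- `L(E, 3)` is an exponential
  have hcont : IsCont E (FF N (Module.finrank ℚ K) Λ) :=
    ⟨fun x _ _ => ((h.entire.mul (diff_factor h.pos _)).analyticAt _).meromorphicAt,
      fun s hs => FF_eq h.pos _ hs (h.eq s hs)⟩
  have h2 := hcont.prod 3 (by norm_num)
  have h3 := (nfEP E).hasProd (w := 3 - 1) (by norm_num)
  rw [add_sub_cancel] at h3
  have h4 := h2.unique h3
  have h5 : FF N (Module.finrank ℚ K) Λ 3 = 0 := by
    unfold FF
    rw [h0, zero_mul]
  rw [h5] at h4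
  exact Complex.exp_ne_zero _ h4.symm

end Pool.Agent.X298.FP
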