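import Mathlib
import Pool.Agent.X298.PA.NFDefs

/-!
# Elliptic curves over number fields: the values on the critical line from the numbers of points, definitions
-/

set_option autoImplicit false

open IsDedekindDomain NumberField

namespace Pool.Agent.X298.FP

open Pool.Agent.X298.PA.NF

variable {K : Type} [Field K] [NumberField K]

/-- The term `(α_v^k + β_v^k) e^{i (γ / T - τ) k log q_v} / (k q_v^k Γ(1 + k log q_v / T))` of `v = x.1` and `k = x.2 + 1`;
`powerSum (localPoly E v) k = α_v^k + β_v^k`. -/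
noncomputable def cTerm (E : WeierstrassCurve K) (τ γ T : ℝ) (x : HeightOneSpectrum (𝓞 K) × ℕ) : ℂ :=
  (powerSum (localPoly E x.1) (x.2 + 1) : ℂ) *
      Complex.exp (((γ / T - τ) * ((x.2 + 1) * Real.log (q x.1)) : ℝ) * Complex.I) /
    (((x.2 + 1) * q x.1 ^ (x.2 + 1) * Real.Gamma (1 + (x.2 + 1) * Real.log (q x.1) / T) : ℝ) : ℂ)

/-- `S_τ(T) = ∑_{v, k} (α_v^k + β_v^k) e^{i (γ / T - τ) k log q_v} / (k q_v^k Γ(1 + k log q_v / T))` -/
noncomputable def cSum (E : WeierstrassCurve K) (τ γ T : ℝ) : ℂ := ∑' x, cTerm E τ γ T x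

/-- The factor `N^{s/2} ((2π)^{-s} Γ(s))^[K : ℚ]` of the completed `L`-function -/
noncomputable def factor (K : Type) [Field K] [NumberField K] (N : ℝ) (s : ℂ) : ℂ :=
  (N : ℂ) ^ (s / 2) * ((2 * Real.pi : ℂ) ^ (-s) * Complex.Gamma s) ^ Module.finrank ℚ K

/-- `Z_τ(T) = N^{s/2} ((2π)^{-s} Γ(s))^[K : ℚ] exp S_τ(T)`, `s = 1 + iτ` -/
noncomputable def zFun (E : WeierstrassCurve K) (N τ γ T : ℝ) : ℂ :=
  factor K N (1 + τ * Complex.I) * Complex.exp (cSum E τ γ T)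

/-- The theorem (conjecture) of Hasse and Weil for `E / K`: `Λ` is entire, equal to `N^{s/2} ((2π)^{-s} Γ(s))^[K : ℚ] L(E / K, s)`
for `Re s > 2`, and `Λ(2 - s) = w Λ(s)`. -/
structure Completed (E : WeierstrassCurve K) (N : ℝ) (w : ℤ) (Λ : ℂ → ℂ) : Prop where
  pos : 0 < N
  entire : Differentiable ℂ Λ
  eq : ∀ s : ℂ, 2 < s.re → Λ s = factor K N s * E.LSeries s
  fe : ∀ s : ℂ, Λ (2 - s) = w * Λ s

end Pool.Agent.X298.FP
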